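import Pool.Agent.helper33.CVX.Spec

/-!
# MP_b3a64d_ag, row NFR: a line which is not free
-/

set_option autoImplicit false
set_option linter.unusedVariables false

namespace Pool.Agent.CVX

open MvPolynomial

theorem NFR : NFR_stmt := by
  intro ι _ _ n J _ _ d F i p V γ he hf l hl hlin hfree
  obtain ⟨j1, hj1⟩ := hl
  have hdeg : ∀ j, ∑ k, d j k * γ.e k - 1 = d j i - 1 := by
    intro j
    rw [Finset.sum_eq_single i]
    · rw [he i, if_pos rfl, mul_one]
    · intro k _ hk
      rw [he k, if_neg hk, mul_zero]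
    · intro h
      exact absurd (Finset.mem_univ _) h
  have hhom : ∀ j, ((if j = j1 then X 0 ^ (d j1 i - 1) else 0 : MvPolynomial (Fin 2) ℂ)).IsHomogeneous
      (∑ k, d j k * γ.e k - 1) := by
    intro j
    rw [hdeg j]
    split_ifs with h
    · rw [h]
      exact isHomogeneous_X_pow _ _
    · exact isHomogeneous_zero _ _ _
  obtain ⟨g, h1, h2, h3⟩ := hfree (fun j => if j = j1 then X 0 ^ (d j1 i - 1) else 0) hhom
  have hev : ∀ v, eval ![1, 0] (γ.f v) = p v := by
    intro v
    rw [hf v]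
    split_ifs <;> simp
  have hbind : ∀ q : MvPolynomial (Vr n) ℂ, eval ![1, 0] (bind₁ γ.f q) = eval p q := by
    intro q
    have h4 : eval (![1, 0] : Fin 2 → ℂ) (bind₁ γ.f q) =
        eval (fun v => eval ![1, 0] (γ.f v)) q := by
      simp only [← aeval_eq_eval, aeval_bind₁]
    rw [h4, show (fun v => eval ![1, 0] (γ.f v)) = p from funext hev]
  have h4 : ∀ j, ∑ v : Vr n, eval p (pderiv v (F j)) * eval ![1, 0] (g v) =
      if j = j1 then 1 else 0 := by
    intro j
    have h5 := congrArg (eval (![1, 0] : Fin 2 → ℂ)) (h3 j)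
    rw [map_sum] at h5
    simp only [map_mul, hbind] at h5
    rw [h5]
    split_ifs <;> simp
  have h5 : ∀ j, ∑ v : Vr n, eval p (pderiv v (F j)) * eval ![1, 0] (g v) =
      ∑ a : Fin (n i + 1), eval p (pderiv ⟨i, a⟩ (F j)) * eval ![1, 0] (g ⟨i, a⟩) := by
    intro j
    rw [Fintype.sum_sigma, Finset.sum_eq_single i]
    · intro k _ hk
      apply Finset.sum_eq_zero
      intro a _
      have h6 : γ.e (⟨k, a⟩ : Vr n).1 = 0 := by
        show γ.e k = 0
        rw [he, if_neg hk]
      rw [h2 ⟨k, a⟩ h6, map_zero, mul_zero]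
    · intro h
      exact absurd (Finset.mem_univ _) h
  have h6 : ∑ j, l j * (if j = j1 then (1 : ℂ) else 0) = 0 := by
    have h7 : ∀ j, l j * (if j = j1 then (1 : ℂ) else 0) =
        ∑ a : Fin (n i + 1), l j * eval p (pderiv ⟨i, a⟩ (F j)) * eval ![1, 0] (g ⟨i, a⟩) := by
      intro j
      rw [← h4 j, h5 j, Finset.mul_sum]
      exact Finset.sum_congr rfl fun a _ => by ring
    rw [Finset.sum_congr rfl fun j _ => h7 j, Finset.sum_comm]
    apply Finset.sum_eq_zero
    intro a _
    rw [← Finset.sum_mul, hlin a, zero_mul]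
  rw [Finset.sum_eq_single j1] at h6
  · rw [if_pos rfl, mul_one] at h6
    exact hj1 h6
  · intro j _ hj
    rw [if_neg hj, mul_zero]
  · intro h
    exact absurd (Finset.mem_univ _) h

end Pool.Agent.CVX
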